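import Pool.Agent.Q23.RC.Stm

set_option autoImplicit false

open scoped Matrix

namespace Pool.Agent.Q23.RC

open Pool.Agent.H919R4.ZS (L2)
open Pool.Agent.Q169.PT (Rep IsCoc Van1 reg Tempered)

noncomputable section

section

variable {G H : Type} [Group G] [NormedAddCommGroup H] [InnerProductSpace ℂ H]

theorem alC_single (π : Rep G H) (g : G) (r : ℂ) :
    alC π (MonoidAlgebra.single g r) = r • π.hom g := by
  unfold alC
  rw [MonoidAlgebra.lift_single]

theorem rep_inner (π : Rep G H) (g : G) (x y : H) :
    inner ℂ (π.hom g x) (π.hom g y) = inner ℂ x y :=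
  LinearIsometry.inner_map_map (⟨(π.hom g : H →ₗ[ℂ] H), π.norm g⟩ : H →ₗᵢ[ℂ] H) x y

theorem rep_inv (π : Rep G H) (g : G) (x y : H) :
    inner ℂ (π.hom g⁻¹ x) y = inner ℂ x (π.hom g y) := by
  rw [← rep_inner π g (π.hom g⁻¹ x) y]
  have h : π.hom g (π.hom g⁻¹ x) = (π.hom g * π.hom g⁻¹) x := rfl
  rw [h, ← map_mul, mul_inv_cancel, map_one]
  rfl

end

/-- the star operation -/
def stt (G : Type) [Group G] : MonoidAlgebra ℂ G →+ MonoidAlgebra ℂ G :=
  MonoidAlgebra.liftNC
    ((MonoidAlgebra.singleAddHom (1 : G)).comp (starRingEnd ℂ : ℂ →+* ℂ).toAddMonoidHom)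
    (fun g => MonoidAlgebra.single g⁻¹ 1)

theorem stt_single (G : Type) [Group G] (g : G) (r : ℂ) :
    stt G (MonoidAlgebra.single g r) = MonoidAlgebra.single g⁻¹ (starRingEnd ℂ r) := by
  unfold stt
  rw [MonoidAlgebra.liftNC_single]
  change MonoidAlgebra.single (1 : G) (starRingEnd ℂ r) * MonoidAlgebra.single g⁻¹ 1 = _
  rw [MonoidAlgebra.single_mul_single, one_mul, mul_one]

theorem adj : S_adj := by
  intro G _
  refine ⟨stt G, stt_single G, ?_, ?_, ?_⟩
  · intro a b
    induction a using MonoidAlgebra.induction_linear with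
    | zero => rw [zero_mul, map_zero, mul_zero]
    | add a a' ha ha' => rw [add_mul, map_add, ha, ha', map_add, mul_add]
    | single g r =>
      induction b using MonoidAlgebra.induction_linear with
      | zero => rw [mul_zero, map_zero, zero_mul]
      | add b b' hb hb' => rw [mul_add, map_add, hb, hb', map_add, add_mul]
      | single h s =>
        rw [MonoidAlgebra.single_mul_single, stt_single, stt_single, stt_single,
          MonoidAlgebra.single_mul_single, mul_inv_rev, map_mul, mul_comm (starRingEnd ℂ r)]
  · intro a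
    induction a using MonoidAlgebra.induction_linear with
    | zero => rw [map_zero, map_zero]
    | add a a' ha ha' => rw [map_add, map_add, ha, ha']
    | single g r => rw [stt_single, stt_single, inv_inv, Complex.conj_conj]
  · intro H _ _ π a x y
    induction a using MonoidAlgebra.induction_linear with
    | zero =>
      rw [map_zero, map_zero]
      change inner ℂ (0 : H) y = inner ℂ x (0 : H)
      rw [inner_zero_left, inner_zero_right]
    | add a a' ha ha' =>
      rw [map_add, map_add, map_add]
      change inner ℂ (alC π (stt G a) x + alC π (stt G a') x) y =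
        inner ℂ x (alC π a y + alC π a' y)
      rw [inner_add_left, inner_add_right, ha, ha']
    | single g r =>
      rw [stt_single, alC_single, alC_single]
      change inner ℂ (starRingEnd ℂ r • π.hom g⁻¹ x) y = inner ℂ x (r • π.hom g y)
      rw [inner_smul_left, inner_smul_right, Complex.conj_conj, rep_inv]

end

end Pool.Agent.Q23.RC
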