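import Pool.Agent.Q23.RC.Adj
import Pool.Agent.Q111.FT.ConvA
import Pool.Agent.Q154.PT.Twist

/-!
# Project RC: the assembly
-/

set_option autoImplicit false

open scoped Matrix

namespace Pool.Agent.Q23.RC

open Pool.Agent.H919R4.ZS (L2)
open Pool.Agent.Q169.PT (Rep IsCoc Van1 reg Tempered)
open Pool.Agent.Q169.PT.Pub (Amenable)
open Pool.Agent.Q111.FT (HH opM opM_apply)

noncomputable section

section phi

variable {G : Type} [Group G] (ρ : Rep G (L2 G)) (st : MonoidAlgebra ℂ G →+ MonoidAlgebra ℂ G)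

/-- the pairing -/
def phi {n : ℕ} (u : Fin n → L2 G) : (Fin n → MonoidAlgebra ℂ G) →+ L2 G where
  toFun y := ∑ k, alC ρ (st (y k)) (u k)
  map_zero' := by
    refine Finset.sum_eq_zero fun k _ => ?_
    rw [Pi.zero_apply, map_zero, map_zero]
    rfl
  map_add' x y := by
    rw [← Finset.sum_add_distrib]
    refine Finset.sum_congr rfl fun k _ => ?_
    rw [Pi.add_apply, map_add, map_add]
    rfl

theorem phi_apply {n : ℕ} (u : Fin n → L2 G) (y : Fin n → MonoidAlgebra ℂ G) :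
    phi ρ st u y = ∑ k, alC ρ (st (y k)) (u k) := rfl

/-- the conjugate transposed matrix -/
def ct {a b : ℕ} (M : Matrix (Fin a) (Fin b) (MonoidAlgebra ℂ G)) :
    Matrix (Fin b) (Fin a) (MonoidAlgebra ℂ G) := fun j k => st (M k j)

variable (h1 : ∀ g r, st (MonoidAlgebra.single g r) = MonoidAlgebra.single g⁻¹ (starRingEnd ℂ r))
  (h2 : ∀ a b, st (a * b) = st b * st a)

include h1 in
theorem st_one : st 1 = 1 := by
  have h : (1 : MonoidAlgebra ℂ G) = MonoidAlgebra.single 1 1 := rfl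
  rw [h, h1, inv_one, map_one]

include h1 in
theorem phi_single {n : ℕ} (u : Fin n → L2 G) (k : Fin n) :
    phi ρ st u (Pi.single k 1) = u k := by
  rw [phi_apply, Finset.sum_eq_single k]
  · rw [Pi.single_eq_same, st_one st h1, map_one]
    rfl
  · intro j _ hj
    rw [Pi.single_eq_of_ne hj, map_zero, map_zero]
    rfl
  · intro h
    exact absurd (Finset.mem_univ _) h

include h2 in
theorem phi_mulVec {a b : ℕ} (M : Matrix (Fin a) (Fin b) (MonoidAlgebra ℂ G)) (u : Fin a → L2 G)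
    (y : Fin b → MonoidAlgebra ℂ G) : phi ρ st u (M *ᵥ y) = phi ρ st (mo ρ (ct st M) u) y := by
  rw [phi_apply, phi_apply]
  have e1 : ∀ k, alC ρ (st ((M *ᵥ y) k)) (u k) =
      ∑ j, alC ρ (st (y j)) (alC ρ (st (M k j)) (u k)) := by
    intro k
    simp only [Matrix.mulVec, dotProduct, map_sum, h2, map_mul, sum_apply]
    rfl
  have e2 : ∀ j, alC ρ (st (y j)) (mo ρ (ct st M) u j) =
      ∑ k, alC ρ (st (y j)) (alC ρ (st (M k j)) (u k)) := by
    intro j
    unfold mo ct
    rw [map_sum]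
  rw [Finset.sum_congr rfl fun k _ => e1 k, Finset.sum_congr rfl fun j _ => e2 j,
    Finset.sum_comm]

include h1 in
theorem st_smul (c : ℂ) (a : MonoidAlgebra ℂ G) : st (c • a) = starRingEnd ℂ c • st a := by
  induction a using MonoidAlgebra.induction_linear with
  | zero => rw [smul_zero, map_zero, smul_zero]
  | add a b ha hb => rw [smul_add, map_add, ha, hb, map_add, smul_add]
  | single g r =>
    rw [MonoidAlgebra.smul_single, h1, h1, MonoidAlgebra.smul_single, smul_eq_mul, smul_eq_mul,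
      map_mul]

variable (w : G →* ℤˣ) (hw : ∀ g f, ρ.hom g f = ((w g : ℤ) : ℂ) • (reg G).hom g f)

theorem w_inv (g : G) : ((w g⁻¹ : ℤˣ) : ℤ) = (w g : ℤ) := by
  rw [map_inv, Int.units_inv_eq_self]

include h1 h2 hw in
theorem phi_isPhi {n : ℕ} (u : Fin n → L2 G) : IsPhi w (phi ρ st u) where
  smul c y := by
    rw [phi_apply, phi_apply, Finset.smul_sum]
    refine Finset.sum_congr rfl fun k _ => ?_
    rw [Pi.smul_apply, st_smul st h1, map_smul]
    rfl
  mul y g := by
    rw [phi_apply, phi_apply]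
    have e : ∀ v : L2 G, (w g : ℤ) • (reg G).hom g⁻¹ v = ρ.hom g⁻¹ v := by
      intro v
      rw [hw, w_inv, Int.cast_smul_eq_zsmul]
    rw [e, map_sum]
    refine Finset.sum_congr rfl fun k _ => ?_
    rw [h2, h1, map_mul, alC_single, map_one, one_smul]
    rfl

include h1 hw in
theorem uniq {n : ℕ} (φ : (Fin n → MonoidAlgebra ℂ G) →+ L2 G) (hφ : IsPhi w φ) :
    φ = phi ρ st fun k => φ (Pi.single k 1) := by
  have key : ∀ (k : Fin n) (a : MonoidAlgebra ℂ G),
      φ (Pi.single k a) = alC ρ (st a) (φ (Pi.single k 1)) := by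
    intro k a
    induction a using MonoidAlgebra.induction_linear with
    | zero =>
      rw [Pi.single_zero, map_zero, map_zero, map_zero]
      rfl
    | add a b ha hb =>
      rw [Pi.single_add, map_add, ha, hb, map_add, map_add]
      rfl
    | single g r =>
      have e : (Pi.single k (MonoidAlgebra.single g r) : Fin n → MonoidAlgebra ℂ G) =
          r • (fun j => (Pi.single k 1 : Fin n → MonoidAlgebra ℂ G) j *
            MonoidAlgebra.single g 1) := by
        funext j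
        by_cases hj : j = k
        · subst hj
          rw [Pi.smul_apply, Pi.single_eq_same, Pi.single_eq_same, one_mul,
            MonoidAlgebra.smul_single, smul_eq_mul, mul_one]
        · rw [Pi.smul_apply, Pi.single_eq_of_ne hj, Pi.single_eq_of_ne hj, zero_mul, smul_zero]
      rw [e, hφ.smul, hφ.mul, h1, alC_single]
      change _ = starRingEnd ℂ r • ρ.hom g⁻¹ _
      rw [hw, w_inv, Int.cast_smul_eq_zsmul]
  refine AddMonoidHom.ext fun y => ?_
  have e : y = ∑ k, Pi.single k (y k) := (Finset.univ_sum_single y).symm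
  conv_lhs => rw [e]
  rw [map_sum, phi_apply]
  exact Finset.sum_congr rfl fun k _ => key k (y k)

variable (h4 : ∀ (H : Type) [NormedAddCommGroup H] [InnerProductSpace ℂ H] (π : Rep G H)
      (a : MonoidAlgebra ℂ G) (x y : H), inner ℂ (alC π (st a) x) y = inner ℂ x (alC π a y))

/-- operators on Hilbert sums -/
def oc {a b : ℕ} (M : Matrix (Fin a) (Fin b) (MonoidAlgebra ℂ G)) : HH G b →L[ℂ] HH G a :=
  opM (M.map (alC ρ))

theorem oc_apply {a b : ℕ} (M : Matrix (Fin a) (Fin b) (MonoidAlgebra ℂ G)) (v : HH G b)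
    (i : Fin a) : (oc ρ M v) i = mo ρ M (fun j => v j) i := by
  unfold oc
  rw [opM_apply]
  rfl

include h4 in
theorem oc_adj {a b : ℕ} (M : Matrix (Fin a) (Fin b) (MonoidAlgebra ℂ G)) :
    ContinuousLinearMap.adjoint (oc ρ M) = oc ρ (ct st M) := by
  symm
  rw [ContinuousLinearMap.eq_adjoint_iff]
  intro x y
  rw [PiLp.inner_apply, PiLp.inner_apply]
  have e1 : ∀ j, inner ℂ ((oc ρ (ct st M) x) j) (y j) =
      ∑ k, inner ℂ (x k) (alC ρ (M k j) (y j)) := by
    intro j
    rw [oc_apply]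
    unfold mo ct
    rw [sum_inner]
    exact Finset.sum_congr rfl fun k _ => h4 _ ρ _ _ _
  have e2 : ∀ k, inner ℂ (x k) ((oc ρ M y) k) = ∑ j, inner ℂ (x k) (alC ρ (M k j) (y j)) := by
    intro k
    rw [oc_apply]
    unfold mo
    rw [inner_sum]
  rw [Finset.sum_congr rfl fun j _ => e1 j, Finset.sum_congr rfl fun k _ => e2 k,
    Finset.sum_comm]

theorem mo_mul {a b c : ℕ} (M : Matrix (Fin a) (Fin b) (MonoidAlgebra ℂ G))
    (N : Matrix (Fin b) (Fin c) (MonoidAlgebra ℂ G)) (v : Fin c → L2 G) :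
    mo ρ M (mo ρ N v) = mo ρ (M * N) v := by
  funext i
  unfold mo
  simp only [Matrix.mul_apply, map_sum, map_mul, sum_apply]
  rw [Finset.sum_comm]
  rfl

theorem oc_mul {a b c : ℕ} (M : Matrix (Fin a) (Fin b) (MonoidAlgebra ℂ G))
    (N : Matrix (Fin b) (Fin c) (MonoidAlgebra ℂ G)) (v : HH G c) :
    oc ρ M (oc ρ N v) = oc ρ (M * N) v := by
  apply PiLp.ext
  intro i
  rw [oc_apply, oc_apply, ← mo_mul]
  congr 1
  funext j
  rw [oc_apply]

theorem norm_le_sum {n : ℕ} (v : HH G n) : ‖v‖ ≤ ∑ j, ‖v j‖ := by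
  have h : ‖v‖ ^ 2 ≤ (∑ j, ‖v j‖) ^ 2 := by
    rw [PiLp.norm_sq_eq_of_L2]
    exact Finset.sum_sq_le_sq_sum_of_nonneg fun _ _ => norm_nonneg _
  exact le_of_sq_le_sq h (Finset.sum_nonneg fun _ _ => norm_nonneg _)

end phi

theorem d2_mul_d1 {G : Type} [Group G] (X : Part G) : X.d2 * X.d1 = 0 := by
  have h : ∀ y : Fin X.n2 → MonoidAlgebra ℂ G, y ᵥ* (X.d2 * X.d1) = 0 := by
    intro y
    rw [← Matrix.vecMul_vecMul]
    exact (X.exact_one _).2 ⟨y, rfl⟩
  ext1 i j
  have h1 := congrFun (h (Pi.single i 1)) j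
  rw [Matrix.single_one_vecMul] at h1
  exact h1

/-- the lemma SM, also if `P.H a = ⊤` -/
def S_sm2 : Prop :=
  ∀ (G : Type) [Group G] (P : PDPair3 G) (a : Fin P.c),
    (∀ u : Fin P.X.n2 → L2 G, ∃ φ : (Fin P.X.n2 → MonoidAlgebra ℂ G) →+ L2 G, IsPhi P.w φ ∧
      ∀ k, φ (Pi.single k 1) = u k) →
    ∀ C : ℝ, (∀ φ : (Fin P.X.n2 → MonoidAlgebra ℂ G) →+ L2 G, IsPhi P.w φ →
      ∀ k, ‖φ (Pi.single k 1)‖ ≤ C * (∑ j, ‖φ (P.X.d2 *ᵥ Pi.single j 1)‖ +
        ∑ l, ‖φ (Pi.single l 1) - φ (P.p *ᵥ Pi.single l 1)‖)) →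
    ∃ (S : Finset (P.H a)) (K : ℝ), 0 ≤ K ∧ ∀ f : L2 G, (∀ x, x ∉ P.H a → f x = 0) →
      ‖f‖ ≤ K * ∑ s ∈ S, ‖(reg G).hom (s : G) f - f‖

/-- the assembly -/
theorem core (hg : S_gap) (hadj : S_adj) (hhil : S_hil) (hpsi : S_psi) (hsm : S_sm2)
    (hfol : S_fol) {G : Type} [Group G] (P : PDPair3 G) (hinf : ∀ b, Infinite (P.H b))
    (a : Fin P.c) (ha : Amenable (P.H a)) :
    ∃ (H : Type) (_ : NormedAddCommGroup H) (_ : InnerProductSpace ℂ H) (_ : CompleteSpace H)
      (π : Rep G H), Tempered π ∧ ¬ Van1 π := by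
  by_contra hcon
  have hvan : ∀ (H' : Type) [NormedAddCommGroup H'] [InnerProductSpace ℂ H'] [CompleteSpace H']
      (π' : Rep G H'), Tempered π' → Van1 π' := by
    intro H' i1 i2 i3 π' hπ'
    by_contra h
    exact hcon ⟨H', i1, i2, i3, π', hπ', h⟩
  obtain ⟨st, h1, h2, -, h4⟩ := hadj G
  obtain ⟨ρ, hw, hT, -, -⟩ := Pool.Agent.Q154.PT.Twist.twist G P.w
  have hreg : Van1 (reg G) := hvan (L2 G) (reg G) fun _ _ h v => h v
  obtain ⟨ε, hε, hgap⟩ := hg G (L2 G) P.X ρ hT hvan
  obtain ⟨C, hC⟩ := hhil (HH G P.X.n0) (HH G P.X.n1) (HH G P.X.n2) (oc ρ P.X.d1) (oc ρ P.X.d2)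
    (oc ρ P.p) (by
      intro x
      rw [oc_mul, d2_mul_d1]
      apply PiLp.ext
      intro i
      rw [oc_apply]
      refine Finset.sum_eq_zero fun j _ => ?_
      rw [Matrix.zero_apply, map_zero]
      rfl) (by
      intro x
      rw [oc_mul, P.p_mul_p]) (by
      intro x
      rw [oc_mul, P.p_mul_d2]) (by
      refine ⟨ε, hε, fun v hv => ?_⟩
      have h := hgap (fun j => v j) (by
        intro z
        have h := hv ((Pool.Agent.Q111.FT.ce G P.X.n0).symm z)
        rw [PiLp.inner_apply] at h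
        rw [← h]
        refine Finset.sum_congr rfl fun k _ => ?_
        rw [oc_apply]
        rfl)
      rw [PiLp.norm_sq_eq_of_L2, PiLp.norm_sq_eq_of_L2]
      refine h.trans (le_of_eq ?_)
      exact Finset.sum_congr rfl fun k _ => by rw [oc_apply]) (by
      intro z hz1 hz2
      rw [oc_adj ρ st h4] at hz1 hz2
      have hm1 : mo ρ (ct st P.X.d2) (fun k => z k) = 0 := by
        funext j
        rw [← oc_apply, hz1]
        rfl
      have hm2 : mo ρ (ct st P.p) (fun k => z k) = fun k => z k := by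
        funext j
        rw [← oc_apply, hz2]
      have h := hpsi G P hinf a hreg (phi ρ st fun k => z k) (phi_isPhi ρ st h1 h2 P.w hw _) (by
        intro y
        rw [phi_mulVec ρ st h2, hm1, phi_apply]
        refine Finset.sum_eq_zero fun k _ => ?_
        rw [Pi.zero_apply, map_zero]) (by
        intro y
        rw [phi_mulVec ρ st h2, hm2])
      apply PiLp.ext
      intro k
      have h5 := h (Pi.single k 1)
      rw [phi_single ρ st h1] at h5
      exact h5)
  obtain ⟨S, K, hK, hf⟩ := hsm G P a (fun u => ⟨phi ρ st u, phi_isPhi ρ st h1 h2 P.w hw u,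
    phi_single ρ st h1 u⟩) |C| (by
      intro φ hφ k
      have hu := uniq ρ st h1 P.w hw φ hφ
      set u : Fin P.X.n2 → L2 G := fun k => φ (Pi.single k 1) with hu'
      set z : HH G P.X.n2 := (Pool.Agent.Q111.FT.ce G P.X.n2).symm u with hz
      have hzk : ∀ k, z k = u k := fun _ => rfl
      have e1 : ∀ j, (ContinuousLinearMap.adjoint (oc ρ P.X.d2) z) j =
          φ (P.X.d2 *ᵥ Pi.single j 1) := by
        intro j
        rw [oc_adj ρ st h4, oc_apply, hu, phi_mulVec ρ st h2, phi_single ρ st h1]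
        rfl
      have e2 : ∀ l, (z - ContinuousLinearMap.adjoint (oc ρ P.p) z) l =
          φ (Pi.single l 1) - φ (P.p *ᵥ Pi.single l 1) := by
        intro l
        rw [PiLp.sub_apply, oc_adj ρ st h4, oc_apply]
        conv_rhs => rw [hu, phi_mulVec ρ st h2, phi_single ρ st h1, phi_single ρ st h1]
        rfl
      have h3 : ‖φ (Pi.single k 1)‖ ≤ ‖z‖ := PiLp.norm_apply_le z k
      refine h3.trans ((hC z).trans ?_)
      refine (mul_le_mul_of_nonneg_right (le_abs_self C) (by positivity)).trans ?_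
      refine mul_le_mul_of_nonneg_left ?_ (abs_nonneg C)
      refine add_le_add ((norm_le_sum _).trans (le_of_eq ?_)) ((norm_le_sum _).trans (le_of_eq ?_))
      · exact Finset.sum_congr rfl fun j _ => by rw [e1]
      · exact Finset.sum_congr rfl fun j _ => by rw [e2])
  have hpos : 0 < K * S.card + 1 := by positivity
  obtain ⟨f, hf1, hf2, hf3⟩ := hfol G (P.H a) ha S (1 / (K * S.card + 1)) (by positivity)
  have h5 := hf f hf1
  rw [hf2] at h5
  have h6 : ∑ s ∈ S, ‖(reg G).hom (s : G) f - f‖ ≤ S.card * (1 / (K * S.card + 1)) := by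
    refine (Finset.sum_le_sum hf3).trans ?_
    rw [Finset.sum_const, nsmul_eq_mul]
  have h7 : (1 : ℝ) ≤ K * (S.card * (1 / (K * S.card + 1))) :=
    h5.trans (mul_le_mul_of_nonneg_left h6 hK)
  have h8 : K * (S.card * (1 / (K * S.card + 1))) < 1 := by
    rw [← mul_assoc, mul_one_div, div_lt_one hpos]
    linarith
  linarith

end

end Pool.Agent.Q23.RC
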