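import Mathlib

/-!
# Project RC: three-dimensional Poincare duality pairs over the complex numbers
-/

set_option autoImplicit false

open scoped Matrix

namespace Pool.Agent.Q23.RC

noncomputable section

/-- the augmentation `ℂ[G] → ℂ`, the sum of the coefficients -/
def augC (G : Type) [Group G] : MonoidAlgebra ℂ G →ₐ[ℂ] ℂ := MonoidAlgebra.lift ℂ ℂ G 1

/-- A partial resolution `ℂ[G]^n2 → ℂ[G]^n1 → ℂ[G]^n0 → ℂ → 0` of the trivial module (row vectors,
`x ↦ x · d1`, `x ↦ x · d2`, augmentation `x ↦ ∑ j, (augC (x j)) * aug j`). -/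
structure Part (G : Type) [Group G] where
  /-- the rank in degree zero -/
  n0 : ℕ
  /-- the rank in degree one -/
  n1 : ℕ
  /-- the rank in degree two -/
  n2 : ℕ
  /-- the first differential -/
  d1 : Matrix (Fin n1) (Fin n0) (MonoidAlgebra ℂ G)
  /-- the second differential -/
  d2 : Matrix (Fin n2) (Fin n1) (MonoidAlgebra ℂ G)
  /-- the values of the augmentation on the basis -/
  aug : Fin n0 → ℂ
  /-- the augmentation is surjective -/
  surj : ∃ x : Fin n0 → MonoidAlgebra ℂ G, ∑ j, augC G (x j) * aug j = 1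
  /-- exactness in degree zero -/
  exact_zero : ∀ x : Fin n0 → MonoidAlgebra ℂ G,
    ∑ j, augC G (x j) * aug j = 0 ↔ ∃ y, y ᵥ* d1 = x
  /-- exactness in degree one -/
  exact_one : ∀ x : Fin n1 → MonoidAlgebra ℂ G, x ᵥ* d1 = 0 ↔ ∃ y, y ᵥ* d2 = x

/-- The `G`-set `⨆_a G ⧸ H a`. -/
abbrev Cos {G : Type} [Group G] {c : ℕ} (H : Fin c → Subgroup G) : Type := Σ a : Fin c, G ⧸ H a

/-- A group `G` with a family of subgroups `H a`, `a < c`, which is a Poincare duality pair of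
dimension three over `ℂ` (Bieri, Eckmann): `G` is of type `FP` over `ℂ` and has a projective
resolution `0 → P → ℂ[G]^n1 → ℂ[G]^n0 → ℂ → 0`, where `P = ℂ[G]^n2 · p` for an idempotent matrix `p`;
`H^i(G; ℂ[G]) = 0` for `i ≠ 2`, and `H^2(G; ℂ[G])` is, up to the twist by the orientation character
`w`, the kernel of `⨁_a ℂ[G ⧸ H a] → ℂ`. -/
structure PDPair3 (G : Type) [Group G] where
  /-- the resolution -/
  X : Part G
  /-- the idempotent matrix -/
  p : Matrix (Fin X.n2) (Fin X.n2) (MonoidAlgebra ℂ G)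
  p_mul_p : p * p = p
  p_mul_d2 : p * X.d2 = X.d2
  /-- exactness in degree two -/
  exact_two : ∀ x, x ᵥ* X.d2 = 0 → x ᵥ* p = 0
  /-- `H^0(G; ℂ[G]) = 0` -/
  coh_zero : ∀ y, X.d1 *ᵥ y = 0 → y = 0
  /-- `H^1(G; ℂ[G]) = 0` -/
  coh_one : ∀ y, X.d2 *ᵥ y = 0 → ∃ z, X.d1 *ᵥ z = y
  /-- the orientation character -/
  w : G →* ℤˣ
  /-- the number of subgroups -/
  c : ℕ
  /-- the subgroups -/
  H : Fin c → Subgroup G
  /-- the duality isomorphism, from `p · ℂ[G]^n2` modulo the coboundaries -/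
  ev : (Fin X.n2 → MonoidAlgebra ℂ G) →ₗ[ℂ] (Cos H →₀ ℂ)
  /-- its kernel -/
  ker : ∀ y, ev y = 0 ↔ ∃ z, X.d2 *ᵥ z = p *ᵥ y
  /-- its image -/
  range : ∀ v : Cos H →₀ ℂ, (v.sum fun _ r => r) = 0 ↔ ∃ y, ev y = v
  /-- it is equivariant -/
  smul : ∀ y g, ev (fun j => y j * MonoidAlgebra.single g 1) =
    (w g : ℤ) • (ev y).mapDomain fun e => g⁻¹ • e

end

end Pool.Agent.Q23.RC
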