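import Pool.Agent.Q23.RC.Stm2
import Pool.Agent.Q23.RC.Core
import Pool.Agent.Q214.RC.Sm

/-!
# Project RC: two elements of the `G`-set, and the lemma SM in this generality
-/

set_option autoImplicit false
set_option linter.unusedSectionVars false

open scoped Matrix

namespace Pool.Agent.Q23.RC

open Pool.Agent.H919R4.ZS (L2)
open Pool.Agent.Q169.PT (Rep IsCoc Van1 reg Tempered)
open Pool.Agent.Q214.RC (SmR psi Psv psi_diff psi_smul psi_single ind_all sm)

noncomputable section

theorem two : S_two := by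
  intro G _ P a
  by_contra hcon
  push Not at hcon
  have hev : ∀ y, P.ev y = 0 := by
    intro y
    have h := (P.range (P.ev y)).2 ⟨y, rfl⟩
    have e1 : P.ev y = Finsupp.single ⟨a, ((1 : G) : G ⧸ P.H a)⟩
        (P.ev y ⟨a, ((1 : G) : G ⧸ P.H a)⟩) := by
      ext e
      rw [hcon e, Finsupp.single_eq_same]
    rw [e1, Finsupp.sum_single_index rfl] at h
    rw [e1, h, Finsupp.single_zero]
  choose z hz using fun l => (P.ker (Pi.single l 1)).1 (hev _)
  let s : Matrix (Fin P.X.n1) (Fin P.X.n2) (MonoidAlgebra ℂ G) := fun j l => z l j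
  have hs : P.X.d2 * s = P.p := by
    ext1 i l
    have h := congrFun (hz l) i
    rw [Matrix.mulVec_single_one] at h
    exact h
  have h1 : P.X.d2 * (1 - s * P.X.d2) = 0 := by
    rw [Matrix.mul_sub, Matrix.mul_one, ← Matrix.mul_assoc, hs, P.p_mul_d2, sub_self]
  choose t ht using fun l => P.coh_one (fun j => (1 - s * P.X.d2 : Matrix _ _ (MonoidAlgebra ℂ G)) j l) (by
    funext i
    exact congrFun (congrFun h1 i) l)
  let T : Matrix (Fin P.X.n0) (Fin P.X.n1) (MonoidAlgebra ℂ G) := fun j l => t l j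
  have hT : P.X.d1 * T = 1 - s * P.X.d2 := by
    ext1 i l
    exact congrFun (ht l) i
  have h2 : P.X.d1 * (T * P.X.d1 - 1) = 0 := by
    rw [Matrix.mul_sub, Matrix.mul_one, ← Matrix.mul_assoc, hT, Matrix.sub_mul, Matrix.one_mul,
      Matrix.mul_assoc, d2_mul_d1, Matrix.mul_zero, sub_zero, sub_self]
  have h3 : T * P.X.d1 = 1 := by
    rw [← sub_eq_zero]
    ext1 i l
    have h := P.coh_zero (fun j => (T * P.X.d1 - 1 : Matrix _ _ (MonoidAlgebra ℂ G)) j l) (by
      funext i
      exact congrFun (congrFun h2 i) l)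
    exact congrFun h i
  obtain ⟨x, hx⟩ := P.X.surj
  have h := (P.X.exact_zero x).2 ⟨x ᵥ* T, by rw [Matrix.vecMul_vecMul, h3, Matrix.vecMul_one]⟩
  rw [hx] at h
  exact one_ne_zero h

/-- the generalisation of SM to the case `P.H a = ⊤` -/
theorem sm2 : S_sm2 := by
  intro G _ P a hphi C hC
  by_cases hA : P.H a ≠ ⊤
  · exact sm G P a hA hphi C hC
  rw [not_not] at hA
  choose φ hφ hφu using fun f : L2 G => hphi (fun k => psi a f (P.ev (Pi.single k 1)))
  -- comparison of the two maps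
  have c1 : ∀ y, SmR (P.H a) (fun f => ‖φ f y - psi a f (P.ev y)‖) := by
    refine ind_all _ ?_ ?_ ?_
    · refine (SmR.zero _).mono fun f => ?_
      rw [map_zero, map_zero, map_zero, sub_zero, norm_zero]
    · intro x y hx hy
      refine (hx.add hy).mono fun f => ?_
      rw [map_add, map_add, map_add, add_sub_add_comm]
      exact norm_add_le _ _
    · intro k g r
      have h1 := ((psi_diff a g⁻¹ (P.ev (Pi.single k 1))).const_mul
        ‖((P.w g : ℤ) : ℂ)‖ (norm_nonneg _)).const_mul ‖r‖ (norm_nonneg _)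
      refine h1.mono fun f => ?_
      rw [(hφ f).smul, (hφ f).mul, map_smul, P.smul, psi_smul, map_zsmul, hφu, ← smul_sub,
        ← smul_sub, norm_smul, RCLike.norm_conj, ← Int.cast_smul_eq_zsmul ℂ, norm_smul]
  -- the kernel
  have c2 : ∀ y, P.ev y = 0 → SmR (P.H a) (fun f => ‖φ f y‖) := by
    intro y hy
    refine (c1 y).mono fun f => ?_
    rw [hy, map_zero, sub_zero]
  have k1 : ∀ z, P.ev (P.X.d2 *ᵥ z) = 0 := by
    intro z
    rw [P.ker]
    exact ⟨z, by rw [Matrix.mulVec_mulVec, P.p_mul_d2]⟩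
  have k2 : ∀ z, P.ev (z - P.p *ᵥ z) = 0 := by
    intro z
    rw [P.ker]
    exact ⟨0, by rw [Matrix.mulVec_zero, Matrix.mulVec_sub, Matrix.mulVec_mulVec, P.p_mul_p,
      sub_self]⟩
  have c3 : ∀ k, SmR (P.H a) (fun f => ‖φ f (Pi.single k 1)‖) := by
    intro k
    have h1 := SmR.sum (Finset.univ : Finset (Fin P.X.n1))
      (fun j => c2 _ (k1 (Pi.single j 1)))
    have h2 := SmR.sum (Finset.univ : Finset (Fin P.X.n2))
      (fun l => c2 _ (k2 (Pi.single l 1)))
    refine ((h1.add h2).const_mul |C| (abs_nonneg C)).mono fun f => ?_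
    refine (hC (φ f) (hφ f) k).trans ?_
    have e : ∀ l, φ f (Pi.single l 1 - P.p *ᵥ Pi.single l 1) =
        φ f (Pi.single l 1) - φ f (P.p *ᵥ Pi.single l 1) := fun l => map_sub _ _ _
    simp only [e]
    refine mul_le_mul_of_nonneg_right (le_abs_self C) ?_
    exact add_nonneg (Finset.sum_nonneg fun _ _ => norm_nonneg _)
      (Finset.sum_nonneg fun _ _ => norm_nonneg _)
  have c4 : ∀ y, SmR (P.H a) (fun f => ‖φ f y‖) := by
    refine ind_all _ ?_ ?_ ?_
    · refine (SmR.zero _).mono fun f => ?_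
      rw [map_zero, norm_zero]
    · intro x y hx hy
      refine (hx.add hy).mono fun f => ?_
      rw [map_add]
      exact norm_add_le _ _
    · intro k g r
      have h1 := ((c3 k).const_mul ‖((P.w g : ℤ) : ℂ)‖ (norm_nonneg _)).const_mul ‖r‖
        (norm_nonneg _)
      refine h1.mono fun f => ?_
      rw [(hφ f).smul, (hφ f).mul, norm_smul, RCLike.norm_conj, ← Int.cast_smul_eq_zsmul ℂ,
        norm_smul, (reg G).norm]
  have c5 : ∀ y, SmR (P.H a) (fun f => ‖psi a f (P.ev y)‖) := by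
    intro y
    refine ((c4 y).add (c1 y)).mono fun f => ?_
    have e : psi a f (P.ev y) = φ f y - (φ f y - psi a f (P.ev y)) := by abel
    calc ‖psi a f (P.ev y)‖ = ‖φ f y - (φ f y - psi a f (P.ev y))‖ := by rw [← e]
      _ ≤ ‖φ f y‖ + ‖φ f y - psi a f (P.ev y)‖ := norm_sub_le _ _
  -- another orbit
  obtain ⟨⟨b, q⟩, he⟩ := two G P a
  have hb : b ≠ a := by
    rintro rfl
    apply he
    obtain ⟨g, rfl⟩ := QuotientGroup.mk_surjective q
    congr 1
    rw [QuotientGroup.eq, hA]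
    trivial
  obtain ⟨q0, hq0⟩ : ∃ q0 : G ⧸ P.H a, q0 = ((1 : G) : G ⧸ P.H a) := ⟨_, rfl⟩
  obtain ⟨y, hy⟩ := (P.range (Finsupp.single (⟨a, q0⟩ : Cos P.H) 1 -
    Finsupp.single (⟨b, q⟩ : Cos P.H) 1)).mp (by
      rw [Finsupp.sum_sub_index (fun _ _ _ => rfl), Finsupp.sum_single_index rfl,
        Finsupp.sum_single_index rfl, sub_self])
  obtain ⟨S, K, hK, hN⟩ := c5 y
  refine ⟨S, K, hK, fun f hf => le_trans ?_ (hN f)⟩
  simp only [hy, map_sub, psi_single, map_one, one_smul]
  have e0 : Psv a f (⟨a, q0⟩ : Cos P.H) = (reg G).hom (Quotient.out q0) f := by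
    simp only [Psv, if_true]
  have e1 : Psv a f (⟨b, q⟩ : Cos P.H) = 0 := by
    simp only [Psv, if_neg hb]
  rw [e0, e1, sub_zero]
  exact le_of_eq ((reg G).norm _ _).symm

end

end Pool.Agent.Q23.RC
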