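import Pool.Agent.Q23.RC.Core
import Pool.Agent.Q23.RC.Two
import Pool.Agent.Q214.RC.Gap
import Pool.Agent.Q222.RC.HIL
import Pool.Agent.Q153.RC.PSI
import Pool.Agent.Q153.RC.FOL
import Pool.Agent.Q123.RC.FH
import Pool.Agent.Q256.RC.Inf
import Pool.Agent.Q169.PT.Fin2
import Pool.Agent.Q169.PT.Rel
import Pool.Agent.Q169.PT.Br

/-!
# Project RC: the final theorem

Lemmas: helper123 (FH), helper214 (GAP, SM), helper222 (HIL), helper153 (PSI, FOL),
helper256 (INF).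
-/

set_option autoImplicit false

namespace Pool.Agent.Q23.RC

open Pool.Agent.Q169.PT (Rep Van1 Tempered)
open Pool.Agent.Q169.PT.Pub (URep IsCocycle WeaklyRegular PropertyT RelativeT Amenable)

theorem final' {G : Type} [Group G]
    (h : ∃ (H : Type) (_ : NormedAddCommGroup H) (_ : InnerProductSpace ℂ H) (_ : CompleteSpace H)
      (π : Rep G H), Tempered π ∧ ¬ Van1 π) :
    ¬ PropertyT G ∧
    (∀ N : Subgroup G, N.Normal → ¬ Amenable N → ¬ RelativeT G N) ∧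
    ∃ (H : Type) (_ : NormedAddCommGroup H) (_ : InnerProductSpace ℂ H) (_ : CompleteSpace H)
      (π : URep G H) (b : G → H), WeaklyRegular π ∧ IsCocycle π b ∧
        (∀ w : H, ∃ g : G, b g ≠ π.act g w - w) ∧
        ∀ N : Subgroup G, N.Normal → ¬ Amenable N → ∀ C : ℝ, ∃ g ∈ N, C < ‖b g‖ := by
  obtain ⟨H, i1, i2, i3, π, hπ, hv⟩ := h
  have hT : ¬ Pool.Agent.Q169.PT.KazhdanT G := fun hT =>
    hv (Pool.Agent.Q169.PT.kazhdan G hT H π)
  unfold Pool.Agent.Q169.PT.Van1 at hv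
  push Not at hv
  obtain ⟨b, hb, hw⟩ := hv
  have key : ∀ N : Subgroup G, N.Normal → ¬ Amenable N → ∀ C : ℝ, ∃ g ∈ N, C < ‖b g‖ := by
    intro N hn hN C
    by_contra hC
    push Not at hC
    obtain ⟨w, hw'⟩ := Pool.Agent.Q169.PT.Re.unb π hπ b hb N hn
      (fun h => hN (Pool.Agent.Q169.PT.Br.folner h)) C hC
    obtain ⟨g, hg⟩ := hw w
    exact hg (hw' g)
  refine ⟨fun h => hT (Pool.Agent.Q169.PT.Br.kaz h), fun N hn hN hR => ?_, H, i1, i2, i3,
    Pool.Agent.Q169.PT.Br.toU π, b, Pool.Agent.Q169.PT.Br.tempered π hπ, hb, hw, key⟩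
  obtain ⟨C, hC⟩ := Pool.Agent.Q169.PT.Re.bdd G N (Pool.Agent.Q169.PT.Br.rel N hR) H π b hb
  obtain ⟨g, hg, hg'⟩ := key N hn hN C
  exact absurd (hC g hg) (not_le.2 hg')

theorem final {G : Type} [Group G] (P : PDPair3 G)
    (a : Fin P.c) (ha : Amenable (P.H a)) :
    ¬ PropertyT G ∧
    (∀ N : Subgroup G, N.Normal → ¬ Amenable N → ¬ RelativeT G N) ∧
    ∃ (H : Type) (_ : NormedAddCommGroup H) (_ : InnerProductSpace ℂ H) (_ : CompleteSpace H)
      (π : URep G H) (b : G → H), WeaklyRegular π ∧ IsCocycle π b ∧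
        (∀ w : H, ∃ g : G, b g ≠ π.act g w - w) ∧
        ∀ N : Subgroup G, N.Normal → ¬ Amenable N → ∀ C : ℝ, ∃ g ∈ N, C < ‖b g‖ :=
  final' (core (Pool.Agent.Q214.RC.gap Pool.Agent.Q123.RC.fh) adj Pool.Agent.Q222.RC.hil Pool.Agent.Q153.RC.PSI.psi sm2
    Pool.Agent.Q153.RC.FOL.fol P (Pool.Agent.Q256.RC.inf G P) a ha)

end Pool.Agent.Q23.RC
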