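import Pool.Agent.Q23.RC.Defs
import Pool.Agent.Q169.PT.Ultra
import Pool.Agent.Q169.PT.Closed
import Pool.Agent.Q169.PT.Pub

/-!
# Project RC: the statements of the jobs

JOBS: FH, GAP, ADJ, HIL, PSI, SM, FOL. Every job proves `theorem <name> : S_<name>`.
-/

set_option autoImplicit false

open scoped Matrix

namespace Pool.Agent.Q23.RC

open Pool.Agent.H919R4.ZS (L2)
open Pool.Agent.Q169.PT (Rep IsCoc Van1 reg Tempered)
open Pool.Agent.Q169.PT.Pub (Amenable)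

noncomputable section

/-- the action of the complex group ring -/
def alC {G H : Type} [Group G] [NormedAddCommGroup H] [InnerProductSpace ℂ H] (π : Rep G H) :
    MonoidAlgebra ℂ G →ₐ[ℂ] (H →L[ℂ] H) := MonoidAlgebra.lift ℂ (H →L[ℂ] H) G π.hom

/-- matrices act on tuples of vectors -/
def mo {G H : Type} [Group G] [NormedAddCommGroup H] [InnerProductSpace ℂ H] (π : Rep G H)
    {a b : ℕ} (M : Matrix (Fin a) (Fin b) (MonoidAlgebra ℂ G)) (v : Fin b → H) : Fin a → H :=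
  fun k => ∑ j, alC π (M k j) (v j)

/-- **JOB FH** (`fh`). This is `fhone` of Pool/Agent/Q169/PT/Deg.lean with complex coefficients:
`MonoidAlgebra ℂ G` in place of `MonoidAlgebra ℤ G`, `X.d1`, `X.d2` in place of `X.d 0`, `X.d 1`,
`alC π` in place of `π.alg`, `eps x = ∑ j, augC G (x j) * X.aug j`. Copy the proof (pw, pw_add, ...,
pw_vecMul, pw_single, hwd, γ, ζ, K, hK, hall) and adapt it (`r • ..` for complex `r`). -/
def S_fh : Prop :=
  ∀ (G H : Type) [Group G] [NormedAddCommGroup H] [InnerProductSpace ℂ H] (X : Part G)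
    (π : Rep G H), Van1 π → ∀ v : Fin X.n1 → H, mo π X.d2 v = 0 → ∃ w, mo π X.d1 w = v

/-- **JOB GAP** (`gap`: `theorem gap (hf : S_fh) : S_gap`). This is `closed` of
Pool/Agent/Q169/PT/Closed.lean with complex coefficients: copy the proof and replace `dm π X 0`,
`dm π X 1` by `mo π X.d1`, `mo π X.d2`, and `π.alg` by `alC π` (`S_ULTRA` is proved in
Pool/Agent/Q169/PT/Ultra.lean; the lemmas on `BdS`, `q_sum`, `q_sub`, `q_csum`, `continuous_sum` of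
Closed.lean can be used as they are). -/
def S_gap : Prop :=
  ∀ (G H : Type) [Group G] [NormedAddCommGroup H] [InnerProductSpace ℂ H] (X : Part G)
    (π : Rep G H), Tempered π →
    (∀ (H' : Type) [NormedAddCommGroup H'] [InnerProductSpace ℂ H'] [CompleteSpace H']
      (π' : Rep G H'), Tempered π' → Van1 π') →
    ∃ ε : ℝ, 0 < ε ∧ ∀ v : Fin X.n1 → H,
      (∀ w : Fin X.n0 → H, ∑ k, inner ℂ (mo π X.d1 w k) (v k) = 0) →
      ε * ∑ j, ‖v j‖ ^ 2 ≤ ∑ k, ‖mo π X.d2 v k‖ ^ 2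

/-- **JOB ADJ** (`adj`). The star operation of the group ring. -/
def S_adj : Prop :=
  ∀ (G : Type) [Group G], ∃ st : MonoidAlgebra ℂ G →+ MonoidAlgebra ℂ G,
    (∀ g r, st (MonoidAlgebra.single g r) = MonoidAlgebra.single g⁻¹ (starRingEnd ℂ r)) ∧
    (∀ a b, st (a * b) = st b * st a) ∧ (∀ a, st (st a) = a) ∧
    ∀ (H : Type) [NormedAddCommGroup H] [InnerProductSpace ℂ H] (π : Rep G H)
      (a : MonoidAlgebra ℂ G) (x y : H), inner ℂ (alC π (st a) x) y = inner ℂ x (alC π a y)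

/-- **JOB HIL** (`hil`). -/
def S_hil : Prop :=
  ∀ (H₀ H₁ H₂ : Type) [NormedAddCommGroup H₀] [InnerProductSpace ℂ H₀] [CompleteSpace H₀]
    [NormedAddCommGroup H₁] [InnerProductSpace ℂ H₁] [CompleteSpace H₁]
    [NormedAddCommGroup H₂] [InnerProductSpace ℂ H₂] [CompleteSpace H₂]
    (A : H₀ →L[ℂ] H₁) (D : H₁ →L[ℂ] H₂) (P : H₂ →L[ℂ] H₂), (∀ x, D (A x) = 0) →
    (∀ x, P (P x) = P x) → (∀ x, P (D x) = D x) →
    (∃ ε : ℝ, 0 < ε ∧ ∀ v, (∀ z, inner ℂ (A z) v = 0) → ε * ‖v‖ ^ 2 ≤ ‖D v‖ ^ 2) →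
    (∀ z, ContinuousLinearMap.adjoint D z = 0 → ContinuousLinearMap.adjoint P z = z → z = 0) →
    ∃ C : ℝ, ∀ z, ‖z‖ ≤ C * (‖ContinuousLinearMap.adjoint D z‖ +
      ‖z - ContinuousLinearMap.adjoint P z‖)

/-- The maps `y ↦ ∑ k, π(y k)* (u k)` for the regular representation twisted by `w`. -/
structure IsPhi {G : Type} [Group G] (w : G →* ℤˣ) {n : ℕ}
    (φ : (Fin n → MonoidAlgebra ℂ G) →+ L2 G) : Prop where
  smul : ∀ (c : ℂ) y, φ (c • y) = (starRingEnd ℂ c) • φ y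
  mul : ∀ y g, φ (fun j => y j * MonoidAlgebra.single g 1) = (w g : ℤ) • (reg G).hom g⁻¹ (φ y)

/-- **JOB PSI** (`psi`).

PROOF. `ψ (ev y) = φ y` is well-defined: if `ev y = ev y'` then `p (y - y') = d2 z` (`P.ker`), so
`φ (y - y') = φ (p (y - y')) = φ (d2 z) = 0`. Let `e₀ = ⟨a, 1⟩` in `Cos P.H`; for `e` choose `y e` with
`ev (y e) = single e 1 - single e₀ 1` (`P.range`) and let `β e = φ (y e)`. By `P.smul` (with `g⁻¹`),
`IsPhi.mul` and `w(g) w(g) = 1`: if `ev y' = mapDomain (g • ·) (ev y)` then `φ y' = λ(g) φ y`. As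
`single (g e) - single e₀ = g (single e - single e₀) + (single (g e₀) - single e₀)`:
`β (g e) = λ(g) β e + β (g e₀)`. So `g ↦ β (g e₀)` is a cocycle for `reg G`, hence
`β (g e₀) = λ(g) v - v` for a `v` (`Van1`). `Ψ e = β e + v` satisfies `Ψ (g e) = λ(g) (Ψ e)`, so `Ψ e`
is fixed by the stabiliser of `e`, which is a conjugate of `P.H e.1`, hence infinite. An element of
`ℓ²(G)` fixed by `λ(g)` for infinitely many `g` is zero (it takes the value `f h` at the infinitely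
many elements `g⁻¹ h`, and tends to `0`: `Pool.Agent.H919R4.ZS.tendsto_cofinite`; or see
Pool/Agent/Q154/PT/Twist.lean). So `β e = - v` for all `e`, and `β e₀ = 0` (well-definedness), so
`β = 0`. By `IsPhi.smul` and additivity `φ y = 0` for all `y` (`ev y` has coefficient sum zero, so
`ev y = ∑ x_e (single e 1 - single e₀ 1)`, `x = ev y`, so `ev y = ev (∑ x_e • y e)`). -/
def S_psi : Prop :=
  ∀ (G : Type) [Group G] (P : PDPair3 G), (∀ b, Infinite (P.H b)) → ∀ _ : Fin P.c,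
    Van1 (reg G) → ∀ φ : (Fin P.X.n2 → MonoidAlgebra ℂ G) →+ L2 G, IsPhi P.w φ →
      (∀ z, φ (P.X.d2 *ᵥ z) = 0) → (∀ y, φ (P.p *ᵥ y) = φ y) → ∀ y, φ y = 0

/-- **JOB SM** (`sm`).

PROOF. Fix `a`, `A = P.H a`, `e₀ = ⟨a, 1⟩`. For `e = ⟨a, c⟩` choose `s e : G` with `⟨a, s e⟩ = e`, and
`s e₀ = 1`. For `f : L2 G` let `Ψ f e = λ(s e) f` if `e.1 = a`, and `Ψ f e = 0` otherwise;
`ψ f x = x.sum fun e r => conj r • Ψ f e` for `x : Cos P.H →₀ ℂ`; `u f k = ψ f (ev (Pi.single k 1))`,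
and `φ f` the map with `IsPhi` and `φ f (Pi.single k 1) = u f k` (`hphi`). Call a map
`T : L2 G → L2 G` small if there are a finite subset `S` of `A` and `K ≥ 0` with
`‖T f‖ ≤ K ∑ s ∈ S, ‖λ(s) f - f‖` for all `f`; sums of small maps are small, so is `B ∘ T` for bounded
`B` (in particular scalar multiples and `λ(g)`). Claim: `f ↦ φ f y - ψ f (ev y)` is small for every
`y`. It is additive in `y`, so let `y = Pi.single k (single g r) = r • (Pi.single k 1 * single g 1)`: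
`φ f y = conj r • w(g) • λ(g⁻¹) (u f k)` and `ev y = r • w(g) • mapDomain (g⁻¹ • ·) (ev (Pi.single k 1))`,
so the difference is a finite linear combination of vectors `λ(g⁻¹) (Ψ f e) - Ψ f (g⁻¹ e)`, each of
which is `0` or `λ(g⁻¹ s(e)) f - λ(s(g⁻¹ e)) f = λ(s(g⁻¹ e)) (λ(t) f - f)` with
`t = s(g⁻¹ e)⁻¹ g⁻¹ s(e)` in `A`. As `ev (d2 z) = 0` and `ev (p y) = ev y` (both by `P.ker`,
`P.p_mul_d2`, `P.p_mul_p`) the terms on the right side of the bound `hC` for `φ = φ f` are small, so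
`f ↦ u f k` is small, so `f ↦ φ f y` is small for every `y` (again linear combinations of
`λ(g) (u f k)`), so `f ↦ ψ f (ev y)` is small for every `y`. Since `A ≠ ⊤` there is `g` not in `A`;
`e₁ = ⟨a, g⟩ ≠ e₀`. Take `y` with `ev y = single e₀ 1 - single e₁ 1` (`P.range`):
`ψ f (ev y) = f - λ(s e₁) f`, and if `f` vanishes outside `A` then `λ(s e₁) f` vanishes outside
`s(e₁) A`, so `f - λ(s e₁) f` agrees with `f` on `A`, and `‖f‖ ≤ ‖f - λ(s e₁) f‖`. -/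
def S_sm : Prop :=
  ∀ (G : Type) [Group G] (P : PDPair3 G) (a : Fin P.c), P.H a ≠ ⊤ →
    (∀ u : Fin P.X.n2 → L2 G, ∃ φ : (Fin P.X.n2 → MonoidAlgebra ℂ G) →+ L2 G, IsPhi P.w φ ∧
      ∀ k, φ (Pi.single k 1) = u k) →
    ∀ C : ℝ, (∀ φ : (Fin P.X.n2 → MonoidAlgebra ℂ G) →+ L2 G, IsPhi P.w φ →
      ∀ k, ‖φ (Pi.single k 1)‖ ≤ C * (∑ j, ‖φ (P.X.d2 *ᵥ Pi.single j 1)‖ +
        ∑ l, ‖φ (Pi.single l 1) - φ (P.p *ᵥ Pi.single l 1)‖)) →
    ∃ (S : Finset (P.H a)) (K : ℝ), 0 ≤ K ∧ ∀ f : L2 G, (∀ x, x ∉ P.H a → f x = 0) →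
      ‖f‖ ≤ K * ∑ s ∈ S, ‖(reg G).hom (s : G) f - f‖

/-- **JOB FOL** (`fol`). Foelner vectors.

PROOF. `f = |F|^(-1/2) ∑ x ∈ F, δ_x` for a Foelner set `F` of `A` (`Amenable`, for `S` and
`δ = ε² / 2`): `‖λ(s) f - f‖² = |sF Δ F| / |F| = 2 |{x ∈ F | s x ∉ F}| / |F| ≤ 2 δ`. (Compare
Pool/Agent/Q169/PT/Br.lean, `E`, `norm_E`, `folner`.) -/
def S_fol : Prop :=
  ∀ (G : Type) [Group G] (A : Subgroup G), Amenable A → ∀ (S : Finset A) (ε : ℝ), 0 < ε →
    ∃ f : L2 G, (∀ x, x ∉ A → f x = 0) ∧ ‖f‖ = 1 ∧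
      ∀ s ∈ S, ‖(reg G).hom (s : G) f - f‖ ≤ ε

end

end Pool.Agent.Q23.RC
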