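import Pool.Agent.Q23.RC.Stm

/-!
# Project RC: two more jobs (polish)

JOBS: INF, TWO. Every job proves `theorem <name> : S_<name>`.
-/

set_option autoImplicit false

open scoped Matrix

namespace Pool.Agent.Q23.RC

noncomputable section

/-- **JOB INF** (`inf`). The peripheral subgroups are infinite (pure algebra).

PROOF. Suppose `B = P.H b` is finite and let `N = ∑ h ∈ B, single h 1` in `ℂ[G]`, so `h N = N` for
`h ∈ B`. For `e = ⟨b, g B⟩` let `Ψ e = g N` (`single g 1 * N`, well-defined; or: the sum of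
`single x 1` over the elements `x` of the coset), and `Ψ e = 0` for `e.1 ≠ b`; `Ψ (g e) = g (Ψ e)`. Let
`ψ : (Cos P.H →₀ ℂ) →ₗ MonoidAlgebra ℂ G` be the linear extension, `ψ (mapDomain (g • ·) x) = g ψ x`.
Let `σ` be the linear bijection of `ℂ[G]` with `σ (single g r) = single g⁻¹ (w(g) r)`,
`σ (a b) = σ b σ a`, `σ (σ a) = a` (compare `stt` in Pool/Agent/Q23/RC/Adj.lean). With
`v k = ψ (ev (Pi.single k 1))` one has `ψ (ev y) = ∑ k, σ (y k) * v k` (both sides are additive in `y`;
for `y = Pi.single k (single g r) = r • (Pi.single k 1 * single g 1)` use `P.smul`). With `r k = σ (v k)`: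
`r ⬝ᵥ y = σ (ψ (ev y))` for all `y`. As `ev (d2 z) = 0` and `ev (p y) = ev y` (both by `P.ker`,
`P.p_mul_d2`, `P.p_mul_p`, see `k1`, `k2` in Pool/Agent/Q214/RC/Sm.lean), `r ᵥ* d2 = 0` and
`r ᵥ* p = r`, so `r = 0` by `P.exact_two`. Hence `ψ (ev y) = 0` for all `y`, and
`Ψ e = Ψ e'` for all `e`, `e'` (`P.range` for `single e 1 - single e' 1`). With `e = ⟨b, 1⟩`, `Ψ e = N`:
`g N = N` for all `g`, so `g = g 1 ∈ B` (look at the coefficients), `B = ⊤` and `G` is finite. Then let
`y j = P.X.aug j • N`: `(d1 *ᵥ y) k = ∑ j, d1 k j * aug j • N = (∑ j, augC (d1 k j) * aug j) • N = 0`,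
because `a * N = augC a • N` and the rows of `d1` are in the image of `· ᵥ* d1` (`P.X.exact_zero`). So
`y = 0` by `P.coh_zero`, all `aug j = 0`, which contradicts `P.X.surj`. -/
def S_inf : Prop := ∀ (G : Type) [Group G] (P : PDPair3 G) (b : Fin P.c), Infinite (P.H b)

/-- **JOB TWO** (`two`). There are two elements in the `G`-set (pure algebra).

PROOF. Otherwise `e₀ = ⟨a, 1⟩` is the only element of `Cos P.H`, and `ev = 0` (the coefficient of `ev y`
at `e₀` is the sum of the coefficients, `0` by `P.range`). By `P.ker` there is for every `l` a `z l` with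
`d2 *ᵥ z l = p *ᵥ Pi.single l 1`; with the matrix `s` with the columns `z l`: `d2 * s = p`. Then
`d2 * (1 - s * d2) = d2 - p * d2 = 0`, so by `P.coh_one` (for the columns) there is a matrix `t` with
`d1 * t = 1 - s * d2`. As `d2 * d1 = 0` (`d2_mul_d1` in Pool/Agent/Q23/RC/Core.lean),
`d1 * (t * d1) = d1`, so `t * d1 = 1` by `P.coh_zero` (columns of `t * d1 - 1`). So every
`x : Fin n0 → ℂ[G]` is `(x ᵥ* t) ᵥ* d1`, and `∑ j, augC (x j) * aug j = 0` by `P.X.exact_zero`, which
contradicts `P.X.surj`. -/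
def S_two : Prop := ∀ (G : Type) [Group G] (P : PDPair3 G) (a : Fin P.c),
  ∃ e₁ : Cos P.H, e₁ ≠ ⟨a, ((1 : G) : G ⧸ P.H a)⟩

end

end Pool.Agent.Q23.RC
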